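import Pool.Agent.Lib.MP_4287a9_ag.St2
import Pool.Agent.Lib.MP_bc213e_ag.DC.Car

/-! Normal affine varieties with a generator of `r (K + Δ)`. -/

namespace Pool.Agent.Lib.MP_bc213e_ag.KL

open Pool.Agent.Lib.MP_4287a9_ag (IsDiv ordS ldisc)
open Pool.Agent.Lib.MP_bc213e_ag.DC (Jac)

/-- A normal affine variety over `k` with function field `M` and coordinates `t`, a Noether
normalisation `x` with the dual derivations `D`, and a generator `u⁻¹ (d x) ^ r` of `r (K + Δ)`,
`Δ ≥ 0`. -/
structure Af (k M N : Type) [Field k] [Field M] [Algebra k M] (φ r : ℕ) where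
  t : N → M
  x : Fin φ → M
  D : Fin φ → Derivation k M M
  u : M
  frac : IsFractionRing (Algebra.adjoin k (Set.range t)) M
  norm : IsIntegrallyClosed (Algebra.adjoin k (Set.range t))
  x_mem : ∀ i, x i ∈ Algebra.adjoin k (Set.range t)
  int : ∀ i, IsIntegral (Algebra.adjoin k (Set.range x)) (t i)
  dual : ∀ i l, D i (x l) = if i = l then 1 else 0
  u_ne : u ≠ 0
  eff : ∀ s : Fin φ → N, u * Jac D (t ∘ s) ^ r ∈ Algebra.adjoin k (Set.range t)

namespace Af

variable {k M N : Type} [Field k] [Field M] [Algebra k M] {φ r : ℕ} (A : Af k M N φ r)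

/-- The coordinate ring. -/
abbrev R : Subalgebra k M := Algebra.adjoin k (Set.range A.t)

/-- The generators of the ideal of `r Δ`. -/
def δ (s : Fin φ → N) : A.R := ⟨_, A.eff s⟩

theorem coe_δ (s : Fin φ → N) : (A.δ s : M) = A.u * Jac A.D (A.t ∘ s) ^ r := rfl

/-- The ideal of `r Δ`. -/
def dd : Ideal A.R := Ideal.span (Set.range A.δ)

/-- The pair `Δ + (1 / q) div w` is klt. -/
def Klt (w : M) (q : ℕ) : Prop :=
  ∀ (S : Finset M) (O : ValuationSubring M), IsDiv A.R S O →
    (ordS O {w} : ℝ) < q * ldisc A.D A.u r O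

end Af

end Pool.Agent.Lib.MP_bc213e_ag.KL
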