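import Pool.Agent.Lib.MP_bc213e_ag.OW.Defs

/-! Discrepancies of divisorial valuations. -/

namespace Pool.Agent.Lib.MP_bc213e_ag.OW

open Pool.Agent.Lib.MP_bc213e_ag.Hyp

variable {K ι : Type} [Field K] [Algebra ℂ K] {x : ι → Kˣ}

/-- The pair with `L = m (K + Δ)` is klt at the point with local ring `O`. Let `w` be a prime
divisor on a birational model `Spec A` whose valuation ring contains `O`, let `k` be the order along
`w` of the rational form `dτ₁ ∧ ⋯ ∧ dτₙ` and `f` a local equation of `L` at the point. Then the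
discrepancy `k - ord w f / m` is larger than `-1`. -/
def KltAt {n : ℕ} (D : Fin n → Derivation ℂ K K) (m : ℕ) (L : Prm x →₀ ℤ) (O : Subalgebra ℂ K) :
    Prop :=
  ∀ (A : Subalgebra ℂ K) (w : ZVal K) (k : ℤ) (f : Kˣ), A.FG → PrimeDiv A w → (∀ r ∈ O, w r ≤ 1) →
    IsLeast {l : ℤ | ∃ u : Fin n → K, (∀ b, w (u b) ≤ 1) ∧ jac D u ≠ 0 ∧ ord w (jac D u) = l} (-k) →
      LocEq L O f → -1 < (k : ℚ) - (ord w (f : K) : ℚ) / m

end Pool.Agent.Lib.MP_bc213e_ag.OW
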